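import Pool.Agent.V11230.BG7

/-!
# Solving Boggle logic puzzles is NP-complete

A reduction from exact bin packing with polynomially bounded sizes.  The adjacency graph consists of
strips with two rows of letters in which all letters of consecutive columns are adjacent; such a
strip with at least three columns is embedded rigidly into the king's graph.  Strips whose length is
the size `n` of the board are parallel, and the other strips are too long to be perpendicular to
them.  All cells are covered, so the strips fill `n / 2` pairs of rows, each exactly.
-/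

set_option autoImplicit false

namespace Pool.Agent.Results.MP_406c0a_lc.BoggleNPComplete

open Pool.Agent.NPC Pool.Agent.NPC.V11230.BGR

/-- **BOGGLE-SOLVE is NP-complete.** -/
theorem result :
    InNPP (fun I : Inst => Valid I ∧ Solve I) ∧
    (∀ L, InNP L → ∃ f : List Bool → Inst, PolyTime (fun x => bits (f x)) ∧
      ∀ x, Valid (f x) ∧ (x ∈ L ↔ Solve (f x))) ∧
    (∀ D : List Bool → List Bool, PolyTime D →
      (∀ I, Valid I → (D (bits I) = [true] ↔ Solve I)) → ∀ L, InNP L → InP L) := by
  refine ⟨inNP_solve, ?_, ?_⟩
  · intro L hL
    obtain ⟨f, hf, hpr, hfL⟩ := hardPr_solve L hL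
    exact ⟨f, PC.toPolyTime hf, fun x => ⟨hpr x, hfL x⟩⟩
  · intro D hD h L hL
    obtain ⟨f, hf, hpr, hfL⟩ := hardPr_solve L hL
    have h1 : PC (fun x : List Bool => x) (fun x : List Bool => x) (fun x => bits (f x)) := hf
    have h2 : PC (fun x : List Bool => x) (fun x : List Bool => x) D :=
      H642R2.TMSim.polyTime_toPC hD
    have h3 : PC (fun x : List Bool => x) (fun x : List Bool => x)
        (fun x => D (bits (f x))) := PC.comp h2 h1
    refine ⟨_, polyTime_test (PC.toPolyTime h3) poly_eq_true, fun x => ?_⟩
    rw [hfL x, ← h _ (hpr x)]
    simp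

end Pool.Agent.Results.MP_406c0a_lc.BoggleNPComplete
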